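import Mathlib

set_option autoImplicit false

namespace Pool.Agent.H968Z.Kerdock

open Finset

/-- The sign `(-1)^a`. -/
def sg (a : ZMod 2) : ℤ := if a = 0 then 1 else -1

lemma sg_add (a b : ZMod 2) : sg (a + b) = sg a * sg b := by
  revert a b; decide

@[simp] lemma sg_zero : sg 0 = 1 := by decide

lemma sg_one : sg 1 = -1 := by decide

lemma sg_cases (a : ZMod 2) : sg a = 1 ∨ sg a = -1 := by
  revert a; decide

lemma zmod2_cases (a : ZMod 2) : a = 0 ∨ a = 1 := by
  revert a; decide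

lemma zmod2_add_self (a : ZMod 2) : a + a = 0 := by
  revert a; decide

section Chars

variable {A : Type*} [AddCommGroup A] [Fintype A]

/-- The character sum of an additive functional. -/
def cs (g : A →+ ZMod 2) : ℤ := ∑ a, sg (g a)

lemma cs_zero : cs (0 : A →+ ZMod 2) = Fintype.card A := by
  simp [cs]

lemma cs_ne_zero (g : A →+ ZMod 2) (hg : g ≠ 0) : cs g = 0 := by
  obtain ⟨b, hb⟩ : ∃ b, g b ≠ 0 := by
    by_contra h
    push Not at h
    exact hg (AddMonoidHom.ext h)
  have hb1 : g b = 1 := (zmod2_cases _).resolve_left hb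
  have h1 : ∑ a, sg (g (a + b)) = ∑ a, sg (g a) :=
    Equiv.sum_comp (Equiv.addRight b) (fun a => sg (g a))
  have h2 : ∑ a, sg (g (a + b)) = - ∑ a, sg (g a) := by
    rw [← Finset.sum_neg_distrib]
    refine Finset.sum_congr rfl fun a _ => ?_
    rw [map_add, sg_add, hb1, sg_one]; ring
  unfold cs
  linarith

lemma cs_nonneg (g : A →+ ZMod 2) : 0 ≤ cs g := by
  by_cases hg : g = 0
  · rw [hg, cs_zero]; positivity
  · rw [cs_ne_zero g hg]

lemma cs_dvd (g : A →+ ZMod 2) : (Fintype.card A : ℤ) ∣ cs g := by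
  by_cases hg : g = 0
  · rw [hg, cs_zero]
  · rw [cs_ne_zero g hg]; exact dvd_zero _

lemma hom_add_self (g : A →+ ZMod 2) : g + g = 0 := by
  ext a; simp [zmod2_add_self]

end Chars

/-- The signed weight `N - 2 wt`. -/
def sw {A ι : Type*} [AddCommGroup A] [Fintype ι] (f : ι → (A →+ ZMod 2)) (a : A) : ℤ :=
  ∑ i, sg (f i a)

lemma sw_zero {A ι : Type*} [AddCommGroup A] [Fintype ι] (f : ι → (A →+ ZMod 2)) :
    sw f 0 = Fintype.card ι := by
  simp [sw]

/-- The final parity contradiction (a form of Nyberg's bound on spaces of bent functions). -/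
theorem fin_contra {A ι : Type*} [AddCommGroup A] [Module (ZMod 2) A] [Fintype A] [Fintype ι]
    (f : ι → (A →+ ZMod 2)) (t : ℕ) (ht : 1 ≤ t) (hN : Fintype.card ι = (2 ^ t) ^ 2)
    (Z : Finset A) (h0 : (0 : A) ∈ Z)
    (hs : ∀ a, a ∉ Z → sw f a = 2 ^ t ∨ sw f a = -2 ^ t)
    (hc : 2 ^ t * Z.card < Fintype.card A) : False := by
  classical
  have hfin : Finite (Submodule (ZMod 2) A) :=
    Finite.of_injective (fun D : Submodule (ZMod 2) A => (D : Set A)) SetLike.coe_injective
  obtain ⟨D, -, hD⟩ := Finite.exists_le_maximal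
    (p := fun D : Submodule (ZMod 2) A => ∀ a ∈ D, a ∈ Z → a = 0) (a := ⊥)
    (fun a ha _ => by simpa using ha)
  have hcover : ∀ v : A, ∃ d ∈ D, ∃ z ∈ Z, v = d + z := by
    intro v
    by_contra hv
    push Not at hv
    have hP : ∀ a ∈ D ⊔ Submodule.span (ZMod 2) {v}, a ∈ Z → a = 0 := by
      intro a ha haZ
      obtain ⟨d, hd, w, hw, rfl⟩ := Submodule.mem_sup.1 ha
      obtain ⟨c, rfl⟩ := Submodule.mem_span_singleton.1 hw
      rcases zmod2_cases c with rfl | rfl
      · simp only [zero_smul, add_zero] at haZ ⊢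
        exact hD.1 d hd haZ
      · simp only [one_smul] at haZ
        exact absurd (by abel) (hv (-d) (D.neg_mem hd) (d + v) haZ)
    have hle := hD.2 hP le_sup_left
    have hvD : v ∈ D := hle (Submodule.mem_sup_right (Submodule.mem_span_singleton_self v))
    exact hv v hvD 0 h0 (by simp)
  have hcard : Fintype.card A ≤ Fintype.card D * Z.card := by
    have : (Finset.univ : Finset A) ⊆
        Finset.image (fun p : D × A => (p.1 : A) + p.2) ((Finset.univ : Finset D) ×ˢ Z) := by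
      intro v _
      obtain ⟨d, hd, z, hz, rfl⟩ := hcover v
      exact Finset.mem_image.2 ⟨(⟨d, hd⟩, z), by simp [hz], rfl⟩
    have h2 := (Finset.card_le_card this).trans Finset.card_image_le
    simpa using h2
  have hDgt : 2 ^ t < Fintype.card D := by
    by_contra h
    push Not at h
    have := Nat.mul_le_mul_right Z.card h
    omega
  have hDpow : Fintype.card D = 2 ^ Module.finrank (ZMod 2) D := by
    have := Module.card_eq_pow_finrank (K := ZMod 2) (V := D)
    simpa using this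
  have hk : t + 1 ≤ Module.finrank (ZMod 2) D := by
    rw [hDpow] at hDgt
    exact (Nat.pow_lt_pow_iff_right (by norm_num)).1 hDgt
  have hdvd : (2 * 2 ^ t : ℤ) ∣ (Fintype.card D : ℤ) := by
    rw [hDpow]
    have := pow_dvd_pow (2 : ℤ) hk
    push_cast
    rwa [pow_succ, mul_comm] at this
  have hsum : (2 * 2 ^ t : ℤ) ∣ ∑ d : D, sw f d := by
    unfold sw
    rw [Finset.sum_comm]
    refine Finset.dvd_sum fun i _ => hdvd.trans ?_
    exact cs_dvd ((f i).comp D.subtype.toAddMonoidHom)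
  have hsum2 : (2 * 2 ^ t : ℤ) ∣ ∑ d ∈ (Finset.univ : Finset D).erase 0, (sw f d - 2 ^ t) := by
    refine Finset.dvd_sum fun d hd => ?_
    have hd0 : (d : A) ≠ 0 := by
      intro h
      exact (Finset.mem_erase.1 hd).1 (Subtype.ext h)
    have hdZ : (d : A) ∉ Z := fun h => hd0 (hD.1 d d.2 h)
    rcases hs d hdZ with h | h
    · rw [h]; simp
    · rw [h]; exact ⟨-1, by ring⟩
  have hsplit : ∑ d : D, (sw f d - 2 ^ t) =
      ((2 ^ t) ^ 2 - 2 ^ t) + ∑ d ∈ (Finset.univ : Finset D).erase 0, (sw f d - 2 ^ t) := by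
    rw [← Finset.add_sum_erase _ _ (Finset.mem_univ (0 : D))]
    simp [sw_zero, hN]
  rw [Finset.sum_sub_distrib] at hsplit
  simp only [Finset.sum_const, Finset.card_univ, nsmul_eq_mul] at hsplit
  obtain ⟨u, hu⟩ := hsum
  obtain ⟨v, hv⟩ := hsum2
  obtain ⟨w, hw⟩ := hdvd
  rw [hu, hv, hw] at hsplit
  obtain ⟨r, rfl⟩ : ∃ r, t = r + 1 := ⟨t - 1, by omega⟩
  have hpos : (0 : ℤ) < 2 ^ (r + 1) := by positivity
  have h3 : (2 : ℤ) * u - 2 * 2 ^ (r + 1) * w = 2 ^ (r + 1) - 1 + 2 * v := by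
    have : (2 : ℤ) ^ (r + 1) * (2 * u - 2 * 2 ^ (r + 1) * w) =
        2 ^ (r + 1) * (2 ^ (r + 1) - 1 + 2 * v) := by linarith
    exact mul_left_cancel₀ hpos.ne' this
  rw [pow_succ] at h3
  have : (2 : ℤ) * (u - 2 ^ r * 2 * w - 2 ^ r - v) = -1 := by linarith
  omega

end Pool.Agent.H968Z.Kerdock
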