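import Mathlib
import Pool.Agent.H968Z.Kerdock.Basic

set_option autoImplicit false

namespace Pool.Agent.H968Z.Kerdock

open Finset

variable {A ι : Type*} [AddCommGroup A] [Fintype A] [Fintype ι]

lemma mom1 (f : ι → (A →+ ZMod 2)) : ∑ a, sw f a = ∑ i, cs (f i) := by
  unfold sw cs
  rw [Finset.sum_comm]

lemma sw_sq (f : ι → (A →+ ZMod 2)) (a : A) :
    sw f a ^ 2 = ∑ i, ∑ j, sg ((f i + f j) a) := by
  unfold sw
  rw [sq, Finset.sum_mul_sum]
  simp [sg_add]

lemma sw_cube (f : ι → (A →+ ZMod 2)) (a : A) :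
    sw f a ^ 3 = ∑ i, ∑ j, ∑ k, sg ((f i + (f j + f k)) a) := by
  have : sw f a ^ 3 = sw f a * sw f a ^ 2 := by ring
  rw [this, sw_sq]
  unfold sw
  rw [Finset.sum_mul]
  refine Finset.sum_congr rfl fun i _ => ?_
  rw [Finset.mul_sum]
  refine Finset.sum_congr rfl fun j _ => ?_
  rw [Finset.mul_sum]
  refine Finset.sum_congr rfl fun k _ => ?_
  simp [sg_add]

lemma sw_four (f : ι → (A →+ ZMod 2)) (a : A) :
    sw f a ^ 4 = ∑ i, ∑ j, ∑ k, ∑ l, sg (((f i + f j) + (f k + f l)) a) := by
  have : sw f a ^ 4 = sw f a ^ 2 * sw f a ^ 2 := by ring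
  rw [this, sw_sq, Finset.sum_mul]
  refine Finset.sum_congr rfl fun i _ => ?_
  rw [Finset.sum_mul]
  refine Finset.sum_congr rfl fun j _ => ?_
  rw [Finset.mul_sum]
  refine Finset.sum_congr rfl fun k _ => ?_
  rw [Finset.mul_sum]
  refine Finset.sum_congr rfl fun l _ => ?_
  simp [sg_add]

lemma mom2 (f : ι → (A →+ ZMod 2)) : ∑ a, sw f a ^ 2 = ∑ i, ∑ j, cs (f i + f j) := by
  simp only [sw_sq, cs]
  rw [Finset.sum_comm]
  refine Finset.sum_congr rfl fun i _ => ?_
  rw [Finset.sum_comm]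

lemma mom3 (f : ι → (A →+ ZMod 2)) :
    ∑ a, sw f a ^ 3 = ∑ i, ∑ j, ∑ k, cs (f i + (f j + f k)) := by
  simp only [sw_cube, cs]
  rw [Finset.sum_comm]
  refine Finset.sum_congr rfl fun i _ => ?_
  rw [Finset.sum_comm]
  refine Finset.sum_congr rfl fun j _ => ?_
  rw [Finset.sum_comm]

lemma mom4 (f : ι → (A →+ ZMod 2)) :
    ∑ a, sw f a ^ 4 = ∑ i, ∑ j, ∑ k, ∑ l, cs ((f i + f j) + (f k + f l)) := by
  simp only [sw_four, cs]
  rw [Finset.sum_comm]
  refine Finset.sum_congr rfl fun i _ => ?_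
  rw [Finset.sum_comm]
  refine Finset.sum_congr rfl fun j _ => ?_
  rw [Finset.sum_comm]
  refine Finset.sum_congr rfl fun k _ => ?_
  rw [Finset.sum_comm]

lemma mom2_ge (f : ι → (A →+ ZMod 2)) :
    (Fintype.card ι : ℤ) * Fintype.card A ≤ ∑ a, sw f a ^ 2 := by
  classical
  rw [mom2]
  calc (Fintype.card ι : ℤ) * Fintype.card A = ∑ _i : ι, (Fintype.card A : ℤ) := by simp
    _ ≤ _ := by
      refine Finset.sum_le_sum fun i _ => ?_
      have := Finset.single_le_sum (f := fun j => cs (f i + f j))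
        (fun j _ => cs_nonneg _) (Finset.mem_univ i)
      simpa [hom_add_self, cs_zero] using this

lemma mom3_ge (f : ι → (A →+ ZMod 2)) :
    (Fintype.card ι : ℤ) * ∑ a, sw f a ≤ ∑ a, sw f a ^ 3 := by
  classical
  rw [mom3, mom1, Finset.mul_sum]
  refine Finset.sum_le_sum fun i _ => ?_
  calc (Fintype.card ι : ℤ) * cs (f i) = ∑ _j : ι, cs (f i) := by simp
    _ ≤ _ := by
      refine Finset.sum_le_sum fun j _ => ?_
      have := Finset.single_le_sum (f := fun k => cs (f i + (f j + f k)))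
        (fun j _ => cs_nonneg _) (Finset.mem_univ j)
      simpa [hom_add_self] using this

lemma mom4_ge (f : ι → (A →+ ZMod 2)) :
    (Fintype.card ι : ℤ) * ∑ a, sw f a ^ 2 +
      2 * Fintype.card A * ((Fintype.card ι : ℤ) ^ 2 - Fintype.card ι) ≤ ∑ a, sw f a ^ 4 := by
  classical
  rw [mom4, mom2]
  have key : ∀ i j : ι, (Fintype.card ι : ℤ) * cs (f i + f j) +
      (if i = j then 0 else 2 * (Fintype.card A : ℤ)) ≤
      ∑ k, ∑ l, cs ((f i + f j) + (f k + f l)) := by
    intro i j
    have hpt : ∀ k l : ι, (if k = l then cs (f i + f j) else 0) +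
        (if i = j then 0 else (if k = i ∧ l = j then (Fintype.card A : ℤ) else 0) +
          (if k = j ∧ l = i then (Fintype.card A : ℤ) else 0)) ≤
        cs ((f i + f j) + (f k + f l)) := by
      intro k l
      by_cases hkl : k = l
      · subst hkl
        have h1 : (if i = j then 0 else (if k = i ∧ k = j then (Fintype.card A : ℤ) else 0) +
          (if k = j ∧ k = i then (Fintype.card A : ℤ) else 0)) = 0 := by
          by_cases hij : i = j
          · simp [hij]
          · have h2 : ¬ (k = i ∧ k = j) := fun h => hij (h.1.symm.trans h.2)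
            have h3 : ¬ (k = j ∧ k = i) := fun h => hij (h.2.symm.trans h.1)
            simp [hij, h2, h3]
        rw [h1]
        simp [hom_add_self]
      · by_cases hij : i = j
        · simp [hkl, hij, cs_nonneg]
        · by_cases h1 : k = i ∧ l = j
          · obtain ⟨rfl, rfl⟩ := h1
            have h3 : ¬ (k = l ∧ l = k) := fun h => hkl h.1
            simp [hkl, hom_add_self, cs_zero]
          · by_cases h2 : k = j ∧ l = i
            · obtain ⟨rfl, rfl⟩ := h2
              have : f l + f k + (f k + f l) = 0 := by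
                rw [add_comm (f k) (f l), hom_add_self]
              simp [hkl, hij, this, cs_zero]
            · simp [hkl, hij, h1, h2, cs_nonneg]
    have hsum := Finset.sum_le_sum (s := Finset.univ) fun k _ =>
      Finset.sum_le_sum (s := Finset.univ) fun l _ => hpt k l
    refine le_trans (le_of_eq ?_) hsum
    simp only [Finset.sum_add_distrib]
    congr 1
    · simp
    · by_cases hij : i = j
      · simp [hij]
      · simp only [hij, if_false, Finset.sum_add_distrib]
        simp [ite_and]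
        ring
  have hsum := Finset.sum_le_sum (s := Finset.univ) fun i _ =>
    Finset.sum_le_sum (s := Finset.univ) fun j _ => key i j
  refine le_trans (le_of_eq ?_) hsum
  simp only [Finset.sum_add_distrib, Finset.mul_sum]
  congr 1
  have : ∀ i : ι, ∑ j : ι, (if i = j then 0 else 2 * (Fintype.card A : ℤ)) =
      2 * Fintype.card A * ((Fintype.card ι : ℤ) - 1) := by
    intro i
    have h1 : ∀ j : ι, (if i = j then 0 else 2 * (Fintype.card A : ℤ)) =
        2 * (Fintype.card A : ℤ) - (if i = j then 2 * (Fintype.card A : ℤ) else 0) := by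
      intro j; split_ifs <;> simp
    simp only [h1, Finset.sum_sub_distrib]
    simp
    ring
  simp only [this]
  simp
  ring

lemma sw_pair (f : ι → (A →+ ZMod 2)) (a b : A) :
    0 ≤ (Fintype.card ι : ℤ) + sw f a + sw f b + sw f (a + b) := by
  have : (Fintype.card ι : ℤ) + sw f a + sw f b + sw f (a + b) =
      ∑ i, (1 + sg (f i a)) * (1 + sg (f i b)) := by
    unfold sw
    have h1 : ∀ i, (1 + sg (f i a)) * (1 + sg (f i b)) =
        1 + sg (f i a) + sg (f i b) + sg (f i (a + b)) := by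
      intro i; rw [map_add, sg_add]; ring
    simp only [h1, Finset.sum_add_distrib]
    simp
  rw [this]
  refine Finset.sum_nonneg fun i _ => mul_nonneg ?_ ?_
  · rcases sg_cases (f i a) with h | h <;> simp [h]
  · rcases sg_cases (f i b) with h | h <;> simp [h]

lemma sw_parity (f : ι → (A →+ ZMod 2)) (a : A) :
    ∃ j : ℤ, 0 ≤ j ∧ sw f a = 2 * j - Fintype.card ι := by
  refine ⟨∑ i, (if f i a = 0 then 1 else 0), Finset.sum_nonneg fun i _ => by split_ifs <;> simp, ?_⟩
  unfold sw
  have h1 : ∀ i, sg (f i a) = 2 * (if f i a = 0 then 1 else 0) - 1 := by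
    intro i; unfold sg; split_ifs <;> simp
  simp only [h1, Finset.sum_sub_distrib, Finset.mul_sum]
  simp

/-- The linear programming inequality. -/
lemma lp (f : ι → (A →+ ZMod 2)) (q α β : ℤ) (hq : 0 ≤ q) (hN : (Fintype.card ι : ℤ) = q ^ 2)
    (hα : 0 ≤ α) (hβ : 0 ≤ β) :
    ∑ a, (q - sw f a) * (sw f a + q) ^ 2 * (α * (sw f a + q) + β) ≤
      - (2 * α * Fintype.card A * (q ^ 4 - q ^ 2)) := by
  have h2 := mom2_ge f
  have h3 := mom3_ge f
  have h4 := mom4_ge f
  rw [hN] at h2 h3 h4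
  have hexp : ∀ a, (q - sw f a) * (sw f a + q) ^ 2 * (α * (sw f a + q) + β) =
      - α * sw f a ^ 4 - (2 * q * α + β) * sw f a ^ 3 - β * q * sw f a ^ 2 +
        (2 * q * α + β) * q ^ 2 * sw f a + (α * q ^ 4 + β * q ^ 3) := by
    intro a; ring
  simp only [hexp, Finset.sum_add_distrib, Finset.sum_sub_distrib, ← Finset.mul_sum]
  simp only [Finset.sum_const, Finset.card_univ, nsmul_eq_mul]
  set P1 := ∑ a, sw f a
  set P2 := ∑ a, sw f a ^ 2
  set P3 := ∑ a, sw f a ^ 3
  set P4 := ∑ a, sw f a ^ 4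
  set M : ℤ := (Fintype.card A : ℤ)
  have e1 : 0 ≤ (2 * q * α + β) * (P3 - q ^ 2 * P1) :=
    mul_nonneg (by positivity) (by linarith)
  have e2 : 0 ≤ β * q * (P2 - q ^ 2 * M) := mul_nonneg (by positivity) (by linarith)
  have e3 : 0 ≤ α * (P4 - (q ^ 2 * P2 + 2 * M * ((q ^ 2) ^ 2 - q ^ 2))) :=
    mul_nonneg hα (by linarith)
  have e4 : 0 ≤ α * q ^ 2 * (P2 - q ^ 2 * M) := mul_nonneg (by positivity) (by linarith)
  nlinarith

end Pool.Agent.H968Z.Kerdock
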