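import Mathlib
import Pool.Agent.H968Z.Kerdock.Moments

set_option autoImplicit false

namespace Pool.Agent.H968Z.Kerdock

open Finset

section Sidon

variable {G ι : Type*} [AddCommGroup G] [Fintype ι] [DecidableEq G] [DecidableEq ι]

/-- Number of ordered representations as a sum of two columns. -/
def r2 (h : ι → G) (g : G) : ℤ := ∑ j, ∑ k, if h j + h k = g then 1 else 0

/-- Indicator of the elements that are not a sum of two distinct columns. -/
def yy (h : ι → G) (g : G) : ℤ := if ∃ j k, j ≠ k ∧ h j + h k = g then 0 else 1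

lemma yy_nonneg (h : ι → G) (g : G) : 0 ≤ yy h g := by
  unfold yy; split_ifs <;> simp

lemma yy_zero (h : ι → G) (h2 : ∀ g : G, g + g = 0)
    (hS : ∀ a b c d, h a + h b = h c + h d →
      (a = b ∧ c = d) ∨ (a = c ∧ b = d) ∨ (a = d ∧ b = c)) : yy h 0 = 1 := by
  unfold yy
  rw [if_neg]
  rintro ⟨j, k, hjk, he⟩
  rw [← h2 (h j)] at he
  rcases hS _ _ _ _ he with h1 | h1 | h1
  · exact hjk h1.1
  · exact hjk h1.2.symm
  · exact hjk h1.2.symm

lemma r2_eq (h : ι → G) (h2 : ∀ g : G, g + g = 0)
    (hS : ∀ a b c d, h a + h b = h c + h d →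
      (a = b ∧ c = d) ∨ (a = c ∧ b = d) ∨ (a = d ∧ b = c)) (g : G) :
    r2 h g = 2 - 2 * yy h g + if g = 0 then (Fintype.card ι : ℤ) else 0 := by
  by_cases hg : g = 0
  · subst hg
    rw [yy_zero h h2 hS]
    have : ∀ j k, (h j + h k = 0) ↔ j = k := by
      intro j k
      constructor
      · intro he
        rw [← h2 (h j)] at he
        rcases hS _ _ _ _ he with h1 | h1 | h1
        · exact h1.1
        · exact h1.2.symm
        · exact h1.2.symm
      · rintro rfl; exact h2 _
    simp [r2, this]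
  · rw [if_neg hg]
    unfold yy
    split_ifs with hex
    · obtain ⟨j0, k0, hjk, he⟩ := hex
      have : ∀ j k, (if h j + h k = g then (1 : ℤ) else 0) =
          (if j = j0 ∧ k = k0 then 1 else 0) + (if j = k0 ∧ k = j0 then 1 else 0) := by
        intro j k
        by_cases h1 : j = j0 ∧ k = k0
        · obtain ⟨rfl, rfl⟩ := h1
          simp [he, hjk]
        · by_cases h3 : j = k0 ∧ k = j0
          · obtain ⟨rfl, rfl⟩ := h3
            rw [if_pos (by rw [add_comm, he]), if_neg h1]; simp
          · rw [if_neg h1, if_neg h3, if_neg]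
            · simp
            · intro h4
              rw [← he] at h4
              rcases hS _ _ _ _ h4 with h5 | h5 | h5
              · exact hjk h5.2
              · exact h1 h5
              · exact h3 h5
      simp only [r2, this, Finset.sum_add_distrib]
      simp [ite_and]
    · have : ∀ j k, ¬ (h j + h k = g) := by
        intro j k he
        by_cases hjk : j = k
        · subst hjk; rw [h2] at he; exact hg he.symm
        · exact hex ⟨j, k, hjk, he⟩
      simp [r2, this]

/-- Cyclic shift on the triples of columns with a given sum. -/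
def shift (h : ι → G) (v : G) :
    Equiv.Perm {p : ι × ι × ι // h p.1 + (h p.2.1 + h p.2.2) = v} where
  toFun p := ⟨(p.1.2.1, p.1.2.2, p.1.1), Eq.trans (by simp only; abel) p.2⟩
  invFun p := ⟨(p.1.2.2, p.1.1, p.1.2.1), Eq.trans (by simp only; abel) p.2⟩
  left_inv _ := rfl
  right_inv _ := rfl

lemma a_pos (h : ι → G) (h2 : ∀ g : G, g + g = 0)
    (hS : ∀ a b c d, h a + h b = h c + h d →
      (a = b ∧ c = d) ∨ (a = c ∧ b = d) ∨ (a = d ∧ b = c))
    (h3 : ¬ 3 ∣ 2 * Fintype.card ι) (v : G) : 1 ≤ ∑ i, yy h (v + h i) := by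
  by_contra hlt
  have hz : ∑ i, yy h (v + h i) = 0 :=
    le_antisymm (by omega) (Finset.sum_nonneg fun i _ => yy_nonneg _ _)
  have heach := (Finset.sum_eq_zero_iff_of_nonneg fun i _ => yy_nonneg h (v + h i)).1 hz
  have hne : ∀ i, v + h i ≠ 0 := by
    intro i he
    have := heach i (Finset.mem_univ _)
    rw [he, yy_zero h h2 hS] at this
    exact one_ne_zero this
  have hr : ∀ i, r2 h (v + h i) = 2 := by
    intro i
    rw [r2_eq h h2 hS, heach i (Finset.mem_univ _), if_neg (hne i)]; ring
  have hcard : Fintype.card {p : ι × ι × ι // h p.1 + (h p.2.1 + h p.2.2) = v} =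
      2 * Fintype.card ι := by
    have h1 : (Fintype.card {p : ι × ι × ι // h p.1 + (h p.2.1 + h p.2.2) = v} : ℤ) =
        ∑ i, r2 h (v + h i) := by
      rw [Fintype.card_subtype, Finset.card_filter]
      push_cast
      rw [Fintype.sum_prod_type]
      refine Finset.sum_congr rfl fun i _ => ?_
      rw [Fintype.sum_prod_type]
      unfold r2
      refine Finset.sum_congr rfl fun j _ => Finset.sum_congr rfl fun k _ => ?_
      have : h i + (h j + h k) = v ↔ h j + h k = v + h i := by
        constructor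
        · intro he; rw [← he, add_comm (h i), add_assoc, h2, add_zero]
        · intro he; rw [he, add_comm v, ← add_assoc, h2, zero_add]
      simp only [this]
    simp only [hr] at h1
    simp only [Finset.sum_const, Finset.card_univ, nsmul_eq_mul] at h1
    omega
  have : Fact (Nat.Prime 3) := ⟨by norm_num⟩
  obtain ⟨p, hp⟩ := Equiv.Perm.exists_fixed_point_of_prime (p := 3) (n := 1)
    (by rw [hcard]; exact h3) (σ := shift h v) (by
      ext p <;> rfl)
  obtain ⟨⟨i, j, k⟩, hv⟩ := p
  have h4 : (j, k, i) = (i, j, k) := congrArg Subtype.val hp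
  simp only [Prod.mk.injEq] at h4
  obtain ⟨rfl, rfl, -⟩ := h4
  simp only [h2, add_zero] at hv
  exact hne _ (by rw [← hv, h2])

end Sidon

/-- There is no Sidon set of size `4^t` in a group of exponent two and order at most `16^t/2`. -/
theorem sidon_abs {G ι : Type*} [AddCommGroup G] [Module (ZMod 2) G] [Fintype G] [Fintype ι]
    (h : ι → G) (t : ℕ) (ht : 2 ≤ t) (hN : Fintype.card ι = (2 ^ t) ^ 2)
    (hS : ∀ a b c d, h a + h b = h c + h d →
      (a = b ∧ c = d) ∨ (a = c ∧ b = d) ∨ (a = d ∧ b = c))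
    (hG : 2 * Fintype.card G ≤ (2 ^ t) ^ 4) : False := by
  classical
  have h2 : ∀ a : G, a + a = 0 := by
    intro a
    have : (1 + 1 : ZMod 2) • a = 0 := by rw [zmod2_add_self, zero_smul]
    rwa [add_smul, one_smul] at this
  have h3 : ¬ 3 ∣ 2 * Fintype.card ι := by
    rw [hN, ← pow_mul, ← pow_succ']
    intro hd
    have := (Nat.Prime.dvd_of_dvd_pow (by norm_num : Nat.Prime 3) hd)
    omega
  set q : ℤ := 2 ^ t with hq
  have hq4 : 4 ≤ q := by
    have : (2 : ℤ) ^ 2 ≤ 2 ^ t := pow_le_pow_right₀ (by norm_num) ht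
    linarith
  have hN' : (Fintype.card ι : ℤ) = q ^ 2 := by rw [hN]; push_cast; ring
  have hG' : 2 * (Fintype.card G : ℤ) ≤ q ^ 4 := by rw [hq]; exact_mod_cast hG
  have hr2sum : ∑ g, r2 h g = q ^ 4 := by
    unfold r2
    rw [Finset.sum_comm]
    have : ∀ j, ∑ g : G, ∑ k, (if h j + h k = g then (1 : ℤ) else 0) = q ^ 2 := by
      intro j
      rw [Finset.sum_comm]
      simp [hN']
    simp only [this]
    simp [hN']
    ring
  have hyysum : 2 * ∑ g, yy h g = 2 * Fintype.card G + q ^ 2 - q ^ 4 := by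
    simp only [r2_eq h h2 hS, Finset.sum_add_distrib, Finset.sum_sub_distrib,
      ← Finset.mul_sum] at hr2sum
    simp only [Finset.sum_const, Finset.card_univ, nsmul_eq_mul, Finset.sum_ite_eq',
      Finset.mem_univ, if_true, hN'] at hr2sum
    linarith
  have hasum : ∑ v : G, ∑ i, yy h (v + h i) = q ^ 2 * ∑ g, yy h g := by
    rw [Finset.sum_comm]
    have : ∀ i, ∑ v : G, yy h (v + h i) = ∑ g, yy h g := fun i =>
      Equiv.sum_comp (Equiv.addRight (h i)) (yy h)
    simp only [this]
    simp [hN']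
  have hterm : ∀ v ∈ (Finset.univ : Finset G), 0 ≤ ∑ i, yy h (v + h i) - 1 := by
    intro v _
    have := a_pos h h2 hS h3 v
    linarith
  have htot : 2 * ∑ v : G, (∑ i, yy h (v + h i) - 1) =
      (q ^ 2 - 1) * (2 * Fintype.card G - q ^ 4) := by
    rw [Finset.sum_sub_distrib, hasum]
    simp only [Finset.sum_const, Finset.card_univ, nsmul_eq_mul]
    linear_combination q ^ 2 * hyysum
  have hq1 : 0 < q ^ 2 - 1 := by nlinarith
  have hnn := Finset.sum_nonneg hterm
  have hGeq : 2 * (Fintype.card G : ℤ) = q ^ 4 := by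
    refine le_antisymm hG' ?_
    have : 0 ≤ (q ^ 2 - 1) * (2 * Fintype.card G - q ^ 4) := by linarith
    by_contra hlt
    have := mul_neg_of_pos_of_neg hq1 (by linarith : 2 * (Fintype.card G : ℤ) - q ^ 4 < 0)
    linarith
  have hzero : ∑ v : G, (∑ i, yy h (v + h i) - 1) = 0 := by
    rw [hGeq] at htot; linarith
  have ha1 : ∀ v : G, ∑ i, yy h (v + h i) = 1 := by
    intro v
    have := (Finset.sum_eq_zero_iff_of_nonneg hterm).1 hzero v (Finset.mem_univ _)
    linarith
  have : Finite (Module.Dual (ZMod 2) G) :=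
    Finite.of_injective (fun φ : Module.Dual (ZMod 2) G => (φ : G → ZMod 2)) DFunLike.coe_injective
  let _ : Fintype (Module.Dual (ZMod 2) G) := Fintype.ofFinite _
  have hcardA : Fintype.card (Module.Dual (ZMod 2) G) = Fintype.card G := by
    rw [Module.card_eq_pow_finrank (K := ZMod 2) (V := Module.Dual (ZMod 2) G),
      Module.card_eq_pow_finrank (K := ZMod 2) (V := G), Subspace.dual_finrank_eq]
  let f : ι → (Module.Dual (ZMod 2) G →+ ZMod 2) := fun i =>
    { toFun := fun φ => φ (h i), map_zero' := rfl, map_add' := fun _ _ => rfl }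
  have hkey : ∀ φ : Module.Dual (ZMod 2) G, φ ≠ 0 → sw f φ * (q ^ 2 - sw f φ ^ 2) = 0 := by
    intro φ hφ
    have hcs : ∑ g, sg (φ g) = 0 := by
      refine cs_ne_zero φ.toAddMonoidHom ?_
      intro h0
      apply hφ
      ext g
      exact DFunLike.congr_fun h0 g
    have e1 : sw f φ ^ 2 = ∑ g, r2 h g * sg (φ g) := by
      rw [sw_sq]
      unfold r2
      simp only [Finset.sum_mul]
      rw [Finset.sum_comm (s := (Finset.univ : Finset G))]
      refine Finset.sum_congr rfl fun j _ => ?_
      rw [Finset.sum_comm (s := (Finset.univ : Finset G))]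
      refine Finset.sum_congr rfl fun k _ => ?_
      simp [f]
    have e2 : sw f φ ^ 2 = q ^ 2 - 2 * ∑ g, yy h g * sg (φ g) := by
      rw [e1]
      have : ∀ g, r2 h g * sg (φ g) = 2 * sg (φ g) - 2 * (yy h g * sg (φ g)) +
          if g = 0 then q ^ 2 else 0 := by
        intro g
        rw [r2_eq h h2 hS, hN']
        split_ifs with hg
        · rw [hg]; simp
        · ring
      simp only [this, Finset.sum_add_distrib, Finset.sum_sub_distrib, ← Finset.mul_sum, hcs]
      simp
      ring
    have e3 : sw f φ * ∑ g, yy h g * sg (φ g) = 0 := by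
      rw [← hcs]
      have : ∀ v, sg (φ v) = ∑ i, yy h (v + h i) * sg (φ v) := by
        intro v; rw [← Finset.sum_mul, ha1, one_mul]
      conv_rhs => rw [Finset.sum_congr rfl fun v _ => this v]
      rw [Finset.sum_comm]
      unfold sw
      rw [Finset.sum_mul]
      refine Finset.sum_congr rfl fun i _ => ?_
      rw [← Equiv.sum_comp (Equiv.addRight (h i)) (fun g => yy h g * sg (φ g)), Finset.mul_sum]
      refine Finset.sum_congr rfl fun v _ => ?_
      simp only [Equiv.coe_addRight, map_add, sg_add, f, AddMonoidHom.coe_mk, ZeroHom.coe_mk]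
      rcases sg_cases (φ (h i)) with h1 | h1 <;> rw [h1] <;> ring
    rw [e2]
    linear_combination 2 * e3
  have hm2 := mom2_ge f
  rw [hN', hcardA] at hm2
  set Z : Finset (Module.Dual (ZMod 2) G) := Finset.univ.filter fun a => sw f a ^ 2 ≠ q ^ 2 with hZ
  have hZ0 : (0 : Module.Dual (ZMod 2) G) ∈ Z := by
    simp only [hZ, Finset.mem_filter, Finset.mem_univ, true_and, sw_zero, hN']
    nlinarith
  have hZcard : q ^ 2 * (Z.card : ℤ) ≤ q ^ 4 := by
    have h1 : ∀ a, sw f a ^ 2 + (if sw f a ^ 2 ≠ q ^ 2 then q ^ 2 else 0) =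
        q ^ 2 + (if a = 0 then q ^ 4 else 0) := by
      intro a
      by_cases ha0 : a = 0
      · subst ha0
        have : (q ^ 2) ^ 2 ≠ q ^ 2 := by nlinarith
        rw [sw_zero, hN', if_pos this, if_pos rfl]; ring
      · rw [if_neg ha0]
        rcases mul_eq_zero.1 (hkey a ha0) with h | h
        · have h3 : sw f a ^ 2 ≠ q ^ 2 := by rw [h]; nlinarith
          rw [if_pos h3, h]; ring
        · have h3 : ¬ sw f a ^ 2 ≠ q ^ 2 := by push Not; linarith
          rw [if_neg h3]; linarith
    have h3 := Finset.sum_congr (s₁ := (Finset.univ : Finset (Module.Dual (ZMod 2) G))) rfl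
      fun a _ => h1 a
    simp only [Finset.sum_add_distrib] at h3
    rw [← Finset.sum_filter] at h3
    simp only [Finset.sum_const, Finset.card_univ, nsmul_eq_mul, Finset.sum_ite_eq',
      Finset.mem_univ, if_true] at h3
    rw [← hZ, hcardA] at h3
    nlinarith
  have hZcard2 : (Z.card : ℤ) ≤ q ^ 2 := by
    have : q ^ 2 * (Z.card : ℤ) ≤ q ^ 2 * q ^ 2 := by nlinarith
    exact le_of_mul_le_mul_left this (by positivity)
  refine fin_contra f t (by omega) hN Z hZ0 ?_ ?_
  · intro a ha
    simp only [hZ, Finset.mem_filter, Finset.mem_univ, true_and, not_not] at ha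
    exact sq_eq_sq_iff_eq_or_eq_neg.1 ha
  · rw [hcardA]
    have : q * (Z.card : ℤ) < Fintype.card G := by
      have h1 : q * (Z.card : ℤ) ≤ q * q ^ 2 := mul_le_mul_of_nonneg_left hZcard2 (by omega)
      have h3 : 0 < q ^ 3 * (q - 2) := mul_pos (by positivity) (by omega)
      nlinarith
    rw [hq] at this
    exact_mod_cast this

end Pool.Agent.H968Z.Kerdock
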