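import Mathlib
import Pool.Agent.H968Z.Kerdock.Moments

set_option autoImplicit false

namespace Pool.Agent.H968Z.Kerdock

open Finset

variable {A ι : Type*} [AddCommGroup A] [Fintype A] [Fintype ι]

lemma sum_split [DecidableEq A] (F : A → ℤ) (w : A) (hw : w ≠ 0) :
    ∑ a, F a = F 0 + F w + ∑ a ∈ (Finset.univ.erase 0).erase w, F a := by
  rw [← Finset.add_sum_erase _ _ (Finset.mem_univ (0 : A)),
    ← Finset.add_sum_erase (Finset.univ.erase 0) _ (a := w) (by simp [hw])]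
  ring

/-- A code with the parameters of the Kerdock code contains the all-one word. -/
lemma exists_all_one (f : ι → (A →+ ZMod 2)) (r : ℤ) (hr : 4 ≤ r)
    (hN : (Fintype.card ι : ℤ) = (2 * r) ^ 2) (h2 : ∀ a : A, a + a = 0)
    (hs : ∀ a, a ≠ 0 → sw f a ≤ 2 * r) (hM : (2 * r) ^ 4 ≤ (Fintype.card A : ℤ)) :
    ∃ w : A, w ≠ 0 ∧ sw f w = -(2 * r) ^ 2 := by
  classical
  set q : ℤ := 2 * r with hq
  have hq8 : 8 ≤ q := by omega
  have hne : ((Finset.univ : Finset A).erase 0).Nonempty := by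
    rw [← Finset.card_pos, Finset.card_erase_of_mem (Finset.mem_univ _), Finset.card_univ]
    have : (8 : ℤ) ^ 4 ≤ q ^ 4 := pow_le_pow_left₀ (by norm_num) hq8 4
    omega
  obtain ⟨w, hw, hmin⟩ := Finset.exists_min_image _ (sw f) hne
  have hw0 : w ≠ 0 := (Finset.mem_erase.1 hw).1
  obtain ⟨j, hj0, hj⟩ := sw_parity f w
  rw [hN] at hj
  refine ⟨w, hw0, ?_⟩
  have hq2 : (0 : ℤ) ≤ q ^ 4 - q ^ 2 := by nlinarith [sq_nonneg (q ^ 2 - 1)]
  by_cases hbig : 4 * j ≤ q ^ 2 - q
  · by_contra hne1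
    have hj1 : 1 ≤ j := by
      by_contra h
      have : j = 0 := by omega
      apply hne1; rw [hj, this]; ring
    have hlp := lp f q 1 (2 * j) (by omega) hN (by norm_num) (by omega)
    rw [sum_split _ w hw0] at hlp
    have hrest : 0 ≤ ∑ a ∈ (Finset.univ.erase 0).erase w,
        (q - sw f a) * (sw f a + q) ^ 2 * (1 * (sw f a + q) + 2 * j) := by
      refine Finset.sum_nonneg fun a ha => ?_
      have ha0 : a ≠ 0 := (Finset.mem_erase.1 (Finset.mem_erase.1 ha).2).1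
      have haw : a ≠ w := (Finset.mem_erase.1 ha).1
      have hsum : a + w ≠ 0 := by
        intro h
        apply haw
        have := h2 w
        rw [← h] at this
        exact (add_right_cancel this).symm
      have h3 := sw_pair f a w
      have h4 := hs _ hsum
      have h5 := hs _ ha0
      refine mul_nonneg (mul_nonneg (by linarith) (sq_nonneg _)) ?_
      rw [hN, hj] at h3
      linarith
    rw [sw_zero, hN, hj] at hlp
    have hMM : 2 * q ^ 4 * (q ^ 4 - q ^ 2) ≤ 2 * 1 * (Fintype.card A : ℤ) * (q ^ 4 - q ^ 2) :=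
      mul_le_mul_of_nonneg_right (by linarith) hq2
    -- the two large terms
    have hA : (q - (2 * j - q ^ 2)) * (2 * j - q ^ 2 + q) ^ 2 * (1 * (2 * j - q ^ 2 + q) + 2 * j) =
        - (((q ^ 2 - 2 * j) ^ 2 - q ^ 2) * ((q ^ 2 - q - 2 * j) * (q ^ 2 - q - 4 * j))) := by ring
    have hB : ((q ^ 2 - 2 * j) ^ 2 - q ^ 2) * ((q ^ 2 - q - 2 * j) * (q ^ 2 - q - 4 * j)) ≤
        (q ^ 4 - q ^ 2) * ((q ^ 2 - q - 2 * j) * (q ^ 2 - q - 4 * j)) := by
      refine mul_le_mul_of_nonneg_right ?_ (mul_nonneg (by linarith) (by linarith))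
      nlinarith
    have hC : (q - q ^ 2) * (q ^ 2 + q) ^ 2 * (1 * (q ^ 2 + q) + 2 * j) =
        - ((q ^ 4 - q ^ 2) * ((q ^ 2 + q) * (q ^ 2 + q + 2 * j))) := by ring
    rw [hA, hC] at hlp
    have hD : (q ^ 4 - q ^ 2) * (2 * q ^ 4) ≤ (q ^ 4 - q ^ 2) *
        ((q ^ 2 + q) * (q ^ 2 + q + 2 * j) + (q ^ 2 - q - 2 * j) * (q ^ 2 - q - 4 * j)) := by
      linarith
    have hpos : (0 : ℤ) < q ^ 4 - q ^ 2 := by nlinarith [sq_nonneg (q ^ 2 - 1)]
    have hE := le_of_mul_le_mul_left hD hpos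
    have hF : q ^ 2 * (2 * j - 1) ≤ 4 * j * (q + j) := by nlinarith
    rcases eq_or_lt_of_le hj1 with h1 | h1
    · rw [← h1] at hF; nlinarith
    · have hG : 4 * j * j ≤ (q ^ 2 - q) * j := mul_le_mul_of_nonneg_right hbig hj0
      have hH : q ^ 2 * (j - 1) ≤ 3 * j * q := by nlinarith
      have hI : q * (j - 1) ≤ 3 * j := by
        have : q * (q * (j - 1)) ≤ q * (3 * j) := by nlinarith
        exact le_of_mul_le_mul_left this (by omega)
      nlinarith
  · exfalso
    push Not at hbig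
    have hlp := lp f q 2 (q ^ 2 - q) (by omega) hN (by norm_num) (by nlinarith)
    rw [← Finset.add_sum_erase _ _ (Finset.mem_univ (0 : A))] at hlp
    have hrest : 0 ≤ ∑ a ∈ Finset.univ.erase 0,
        (q - sw f a) * (sw f a + q) ^ 2 * (2 * (sw f a + q) + (q ^ 2 - q)) := by
      refine Finset.sum_nonneg fun a ha => ?_
      have ha0 : a ≠ 0 := (Finset.mem_erase.1 ha).1
      have h5 := hs _ ha0
      have h6 := hmin a ha
      refine mul_nonneg (mul_nonneg (by linarith) (sq_nonneg _)) ?_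
      rw [hj] at h6
      linarith
    rw [sw_zero, hN] at hlp
    have hMM : 2 * 2 * q ^ 4 * (q ^ 4 - q ^ 2) ≤
        2 * 2 * (Fintype.card A : ℤ) * (q ^ 4 - q ^ 2) :=
      mul_le_mul_of_nonneg_right (by linarith) hq2
    have hC : (q - q ^ 2) * (q ^ 2 + q) ^ 2 * (2 * (q ^ 2 + q) + (q ^ 2 - q)) =
        - ((q ^ 4 - q ^ 2) * ((q ^ 2 + q) * (3 * q ^ 2 + q))) := by ring
    rw [hC] at hlp
    have hD : (q ^ 4 - q ^ 2) * (4 * q ^ 4) ≤ (q ^ 4 - q ^ 2) *
        ((q ^ 2 + q) * (3 * q ^ 2 + q)) := by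
      linarith
    have hpos : (0 : ℤ) < q ^ 4 - q ^ 2 := by nlinarith [sq_nonneg (q ^ 2 - 1)]
    have hE := le_of_mul_le_mul_left hD hpos
    have hF : q ^ 2 * (q ^ 2) ≤ q ^ 2 * (4 * q + 1) := by nlinarith
    have hG := le_of_mul_le_mul_left hF (by positivity)
    nlinarith

/-- No linear code has the parameters of the Kerdock code (length at least 64). -/
theorem kerdock_abs [Module (ZMod 2) A] (f : ι → (A →+ ZMod 2)) (t : ℕ) (ht : 3 ≤ t)
    (hN : Fintype.card ι = (2 ^ t) ^ 2)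
    (hs : ∀ a, a ≠ 0 → sw f a ≤ 2 ^ t) (hM : (2 ^ t) ^ 4 ≤ Fintype.card A) : False := by
  classical
  have h2 : ∀ a : A, a + a = 0 := by
    intro a
    have : (1 + 1 : ZMod 2) • a = 0 := by rw [zmod2_add_self, zero_smul]
    rwa [add_smul, one_smul] at this
  obtain ⟨u, rfl⟩ : ∃ u, t = u + 1 := ⟨t - 1, by omega⟩
  have hr : (4 : ℤ) ≤ 2 ^ u := by
    have : (2 : ℤ) ^ 2 ≤ 2 ^ u := pow_le_pow_right₀ (by norm_num) (by omega)
    linarith
  have hqq : (2 : ℤ) ^ (u + 1) = 2 * 2 ^ u := by ring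
  have hN' : (Fintype.card ι : ℤ) = (2 * 2 ^ u) ^ 2 := by rw [hN]; push_cast; ring
  have hM' : ((2 : ℤ) * 2 ^ u) ^ 4 ≤ (Fintype.card A : ℤ) := by
    rw [← hqq]; exact_mod_cast hM
  obtain ⟨w, hw0, hw⟩ := exists_all_one f (2 ^ u) hr hN' h2 (by rw [← hqq]; exact hs) hM'
  rw [← hqq] at hw hN' hM'
  set q : ℤ := 2 ^ (u + 1) with hq
  have hq8 : 8 ≤ q := by omega
  have hlow : ∀ a, a ≠ 0 → a ≠ w → -q ≤ sw f a := by
    intro a ha0 haw
    have hsum : a + w ≠ 0 := by
      intro h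
      apply haw
      have := h2 w
      rw [← h] at this
      exact (add_right_cancel this).symm
    have h3 := sw_pair f a w
    have h4 := hs _ hsum
    rw [hN', hw] at h3
    linarith
  have hm2 := mom2_ge f
  have hm4 := mom4_ge f
  rw [hN'] at hm2 hm4
  have hterm : ∀ a ∈ (Finset.univ.erase 0).erase w, 0 ≤ sw f a ^ 2 * (q ^ 2 - sw f a ^ 2) := by
    intro a ha
    have ha0 : a ≠ 0 := (Finset.mem_erase.1 (Finset.mem_erase.1 ha).2).1
    have haw : a ≠ w := (Finset.mem_erase.1 ha).1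
    have h1 := hlow a ha0 haw
    have h3 := hs a ha0
    refine mul_nonneg (sq_nonneg _) ?_
    nlinarith
  have htot : ∑ a, sw f a ^ 2 * (q ^ 2 - sw f a ^ 2) =
      q ^ 2 * ∑ a, sw f a ^ 2 - ∑ a, sw f a ^ 4 := by
    rw [Finset.mul_sum, ← Finset.sum_sub_distrib]
    refine Finset.sum_congr rfl fun a _ => by ring
  have hpos : (0 : ℤ) < q ^ 4 - q ^ 2 := by nlinarith [sq_nonneg (q ^ 2 - 1)]
  have hzero : ∑ a ∈ (Finset.univ.erase 0).erase w, sw f a ^ 2 * (q ^ 2 - sw f a ^ 2) = 0 := by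
    refine le_antisymm ?_ (Finset.sum_nonneg hterm)
    rw [sum_split _ w hw0, sw_zero, hN', hw] at htot
    have hMM : 2 * q ^ 4 * (q ^ 4 - q ^ 2) ≤ 2 * (Fintype.card A : ℤ) * (q ^ 4 - q ^ 2) := by
      nlinarith
    nlinarith
  have heach := (Finset.sum_eq_zero_iff_of_nonneg hterm).1 hzero
  have hMeq : (Fintype.card A : ℤ) ≤ q ^ 4 := by
    rw [sum_split _ w hw0, sw_zero, hN', hw, hzero] at htot
    have : (q ^ 4 - q ^ 2) * (Fintype.card A : ℤ) ≤ (q ^ 4 - q ^ 2) * q ^ 4 := by nlinarith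
    exact le_of_mul_le_mul_left this hpos
  set Z : Finset A := Finset.univ.filter fun a => sw f a ^ 2 ≠ q ^ 2 with hZ
  have hZ0 : (0 : A) ∈ Z := by
    simp only [hZ, Finset.mem_filter, Finset.mem_univ, true_and, sw_zero, hN']
    nlinarith
  have hZcard : q ^ 2 * (Z.card : ℤ) ≤ 2 * q ^ 4 := by
    have h1 : ∀ a, sw f a ^ 2 + (if sw f a ^ 2 ≠ q ^ 2 then q ^ 2 else 0) =
        q ^ 2 + ((if a = 0 then q ^ 4 else 0) + (if a = w then q ^ 4 else 0)) := by
      intro a
      by_cases ha0 : a = 0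
      · subst ha0
        have : (q ^ 2) ^ 2 ≠ q ^ 2 := by nlinarith
        rw [sw_zero, hN', if_pos this, if_pos rfl, if_neg hw0.symm]; ring
      · by_cases haw : a = w
        · subst haw
          have : (-q ^ 2) ^ 2 ≠ q ^ 2 := by nlinarith
          rw [hw, if_pos this, if_neg ha0, if_pos rfl]; ring
        · have := heach a (by simp [ha0, haw])
          rw [if_neg ha0, if_neg haw]
          rcases mul_eq_zero.1 this with h | h
          · have h3 : sw f a ^ 2 ≠ q ^ 2 := by rw [h]; positivity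
            rw [if_pos h3, h]; ring
          · have h3 : ¬ sw f a ^ 2 ≠ q ^ 2 := by push Not; linarith
            rw [if_neg h3]; linarith
    have h3 := Finset.sum_congr (s₁ := (Finset.univ : Finset A)) rfl fun a _ => h1 a
    simp only [Finset.sum_add_distrib] at h3
    rw [← Finset.sum_filter] at h3
    simp only [Finset.sum_const, Finset.card_univ, nsmul_eq_mul, Finset.sum_ite_eq',
      Finset.mem_univ, if_true] at h3
    rw [← hZ] at h3
    nlinarith
  have hZcard2 : (Z.card : ℤ) ≤ 2 * q ^ 2 := by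
    have : q ^ 2 * (Z.card : ℤ) ≤ q ^ 2 * (2 * q ^ 2) := by nlinarith
    exact le_of_mul_le_mul_left this (by positivity)
  refine fin_contra f (u + 1) (by omega) hN Z hZ0 ?_ ?_
  · intro a ha
    simp only [hZ, Finset.mem_filter, Finset.mem_univ, true_and, not_not] at ha
    exact sq_eq_sq_iff_eq_or_eq_neg.1 ha
  · have : q * (Z.card : ℤ) < Fintype.card A := by
      have h1 : q * (Z.card : ℤ) ≤ q * (2 * q ^ 2) := mul_le_mul_of_nonneg_left hZcard2 (by omega)
      have h3 : q * (2 * q ^ 2) < q ^ 4 := by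
        have : 0 < q ^ 3 * (q - 2) := mul_pos (by positivity) (by omega)
        nlinarith
      linarith
    rw [hq] at this
    exact_mod_cast this

end Pool.Agent.H968Z.Kerdock
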