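import Mathlib
import Pool.Agent.H968Z.Kerdock.PartA
import Pool.Agent.H968Z.Kerdock.PartB

set_option autoImplicit false

namespace Pool.Agent.H968Z.Kerdock

open Finset

lemma card_pow {n : ℕ} (C : Submodule (ZMod 2) (Fin n → ZMod 2)) :
    Nat.card C = 2 ^ Module.finrank (ZMod 2) C := by
  have := Module.natCard_eq_pow_finrank (K := ZMod 2) (V := C)
  simpa using this

lemma two_pow_ge (t : ℕ) (ht : 2 ≤ t) : 4 * t + 1 ≤ 2 ^ (2 * t) := by
  induction t, ht using Nat.le_induction with
  | base => norm_num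
  | succ k hk ih =>
    have : 2 ^ (2 * (k + 1)) = 4 * 2 ^ (2 * k) := by ring
    omega

lemma norm_single_le {n : ℕ} (i : Fin n) :
    hammingNorm (Pi.single i (1 : ZMod 2) : Fin n → ZMod 2) ≤ 1 := by
  classical
  unfold hammingNorm
  rw [Finset.card_le_one]
  intro a ha b hb
  simp only [Finset.mem_filter, Finset.mem_univ, true_and, Pi.single_apply, ne_eq,
    ite_eq_right_iff, one_ne_zero, imp_false, not_not] at ha hb
  rw [ha, hb]

lemma norm_add_le {n : ℕ} (x y : Fin n → ZMod 2) :
    hammingNorm (x + y) ≤ hammingNorm x + hammingNorm y := by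
  classical
  unfold hammingNorm
  refine le_trans (Finset.card_le_card ?_) (Finset.card_union_le _ _)
  intro i hi
  simp only [Finset.mem_filter, Finset.mem_univ, true_and, Pi.add_apply, Finset.mem_union] at hi ⊢
  by_contra h
  push Not at h
  exact hi (by rw [h.1, h.2, add_zero])

lemma four_singles {n : ℕ} (a b c d : Fin n)
    (h : (Pi.single a (1 : ZMod 2) : Fin n → ZMod 2) + Pi.single b 1 + Pi.single c 1 +
      Pi.single d 1 = 0) :
    (a = b ∧ c = d) ∨ (a = c ∧ b = d) ∨ (a = d ∧ b = c) := by
  have key : ∀ x : Fin n, ((if x = a then (1 : ZMod 2) else 0) + (if x = b then 1 else 0) +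
      (if x = c then 1 else 0) + (if x = d then 1 else 0)) = 0 := by
    intro x
    have hx := congrFun h x
    simpa only [Pi.add_apply, Pi.single_apply, Pi.zero_apply] using hx
  by_cases h1 : a = b
  · subst h1
    by_cases h6 : c = d
    · exact Or.inl ⟨rfl, h6⟩
    · exfalso
      have hc := key c
      rw [if_pos rfl, if_neg h6, zmod2_add_self] at hc
      exact absurd hc (by decide)
  · have ha := key a
    have hb := key b
    rw [if_pos rfl, if_neg h1] at ha
    rw [if_pos rfl, if_neg (Ne.symm h1)] at hb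
    by_cases h2 : a = c
    · subst h2
      rw [if_neg (Ne.symm h1)] at hb
      by_cases h5 : b = d
      · exact Or.inr (Or.inl ⟨rfl, h5⟩)
      · rw [if_neg h5] at hb
        exact absurd hb (by decide)
    · rw [if_neg h2] at ha
      by_cases h3 : a = d
      · subst h3
        rw [if_neg (Ne.symm h1)] at hb
        by_cases h4 : b = c
        · exact Or.inr (Or.inr ⟨rfl, h4⟩)
        · rw [if_neg h4] at hb
          exact absurd hb (by decide)
      · rw [if_neg h3] at ha
        exact absurd ha (by decide)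

theorem partA (t : ℕ) (ht : 2 ≤ t) (C : Submodule (ZMod 2) (Fin (2 ^ (2 * t)) → ZMod 2))
    (hd : ∀ x ∈ C, ∀ y ∈ C, x ≠ y → 6 ≤ hammingDist x y) :
    Nat.card C ≤ 2 ^ (2 ^ (2 * t) - 2 * (2 * t) - 1) := by
  classical
  by_contra hlt
  push Not at hlt
  rw [card_pow] at hlt
  have hk := (Nat.pow_lt_pow_iff_right (by norm_num)).1 hlt
  have hge := two_pow_ge t ht
  have hw : ∀ x ∈ C, hammingNorm x ≤ 5 → x = 0 := by
    intro x hx h5
    by_contra hne
    have := hd x hx 0 C.zero_mem hne
    rw [hammingDist_zero_right] at this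
    omega
  let i0 : Fin (2 ^ (2 * t)) := ⟨0, by positivity⟩
  let e : Fin (2 ^ (2 * t)) → (Fin (2 ^ (2 * t)) → ZMod 2) := fun i => Pi.single i 1
  let C' : Submodule (ZMod 2) (Fin (2 ^ (2 * t)) → ZMod 2) :=
    C ⊔ Submodule.span (ZMod 2) {e i0}
  have he0 : e i0 ∉ C := by
    intro h
    have := hw _ h ((norm_single_le i0).trans (by norm_num))
    have h1 := congrFun this i0
    simp [e] at h1
  have hlt' : C < C' := by
    refine lt_of_le_of_ne le_sup_left ?_
    intro h
    apply he0
    rw [h]
    exact Submodule.mem_sup_right (Submodule.mem_span_singleton_self _)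
  have hrank := Submodule.finrank_lt_finrank_of_lt hlt'
  have hq := Submodule.finrank_quotient_add_finrank C'
  rw [Module.finrank_fintype_fun_eq_card, Fintype.card_fin] at hq
  have : Finite ((Fin (2 ^ (2 * t)) → ZMod 2) ⧸ C') :=
    Finite.of_surjective _ C'.mkQ_surjective
  let _ : Fintype ((Fin (2 ^ (2 * t)) → ZMod 2) ⧸ C') := Fintype.ofFinite _
  refine sidon_abs (G := (Fin (2 ^ (2 * t)) → ZMod 2) ⧸ C') (fun i => C'.mkQ (e i)) t ht
    (by rw [Fintype.card_fin]; ring) ?_ ?_
  · intro a b c d habcd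
    have hmem : e a + e b + e c + e d ∈ C' := by
      rw [← Submodule.Quotient.mk_eq_zero, ← Submodule.mkQ_apply]
      simp only [map_add]
      rw [habcd]
      have h2 : ∀ g : (Fin (2 ^ (2 * t)) → ZMod 2) ⧸ C', g + g = 0 := by
        intro g
        have : (1 + 1 : ZMod 2) • g = 0 := by rw [zmod2_add_self, zero_smul]
        rwa [add_smul, one_smul] at this
      rw [add_assoc, h2]
    have hn : hammingNorm (e a + e b + e c + e d) ≤ 4 := by
      have h1 := norm_add_le (e a + e b + e c) (e d)
      have h2 := norm_add_le (e a + e b) (e c)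
      have h3 := norm_add_le (e a) (e b)
      have := norm_single_le a
      have := norm_single_le b
      have := norm_single_le c
      have := norm_single_le d
      simp only [e] at *
      omega
    obtain ⟨x, hx, y, hy, hxy⟩ := Submodule.mem_sup.1 hmem
    obtain ⟨z, rfl⟩ := Submodule.mem_span_singleton.1 hy
    rcases zmod2_cases z with rfl | rfl
    · rw [zero_smul, add_zero] at hxy
      rw [hxy] at hx
      exact four_singles a b c d (hw _ hx (hn.trans (by norm_num)))
    · exfalso
      rw [one_smul] at hxy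
      have hx2 : x = e a + e b + e c + e d + e i0 := by
        rw [← hxy, add_assoc]
        have : e i0 + e i0 = 0 := by ext j; simp [zmod2_add_self]
        rw [this, add_zero]
      have h1 := norm_add_le (e a + e b + e c + e d) (e i0)
      have h2 := norm_single_le i0
      have h0 := hw x hx (by rw [hx2]; simp only [e] at *; omega)
      rw [hx2] at h0
      have h4 := congrArg (fun v : Fin (2 ^ (2 * t)) → ZMod 2 => ∑ j, v j) h0
      simp only [e, Pi.add_apply, Finset.sum_add_distrib, Finset.sum_pi_single', Finset.mem_univ,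
        if_true, Pi.zero_apply, Finset.sum_const_zero] at h4
      exact absurd h4 (by decide)
  · rw [Module.card_eq_pow_finrank (K := ZMod 2), ZMod.card, ← pow_succ', ← pow_mul]
    exact Nat.pow_le_pow_right (by norm_num) (by omega)

theorem partB (t : ℕ) (ht : 3 ≤ t) (C : Submodule (ZMod 2) (Fin (2 ^ (2 * t)) → ZMod 2))
    (hd : ∀ x ∈ C, ∀ y ∈ C, x ≠ y → 2 ^ (2 * t - 1) - 2 ^ ((2 * t - 2) / 2) ≤ hammingDist x y) :
    Nat.card C ≤ 2 ^ (2 * (2 * t) - 1) := by
  classical
  by_contra hlt
  push Not at hlt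
  rw [card_pow] at hlt
  have hk := (Nat.pow_lt_pow_iff_right (by norm_num)).1 hlt
  let _ : Fintype C := Fintype.ofFinite _
  let f : Fin (2 ^ (2 * t)) → (C →+ ZMod 2) := fun i =>
    { toFun := fun x => x.1 i, map_zero' := rfl, map_add' := fun _ _ => rfl }
  refine kerdock_abs f t ht (by rw [Fintype.card_fin]; ring) ?_ ?_
  · intro a ha
    have h1 := hd a.1 a.2 0 C.zero_mem (fun h => ha (Subtype.ext h))
    rw [hammingDist_zero_right] at h1
    have h2 : sw f a = 2 ^ (2 * t) - 2 * (hammingNorm a.1 : ℤ) := by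
      unfold sw hammingNorm
      have h3 : ∀ i, sg (f i a) = 1 - 2 * (if a.1 i ≠ 0 then 1 else 0) := by
        intro i
        show sg (a.1 i) = _
        unfold sg
        by_cases h : a.1 i = 0 <;> simp [h]
      simp only [h3, Finset.sum_sub_distrib, ← Finset.mul_sum]
      rw [Finset.card_filter]
      simp
    obtain ⟨u, rfl⟩ : ∃ u, t = u + 1 := ⟨t - 1, by omega⟩
    have e1 : 2 * (u + 1) - 1 = 2 * u + 1 := by omega
    have e2 : (2 * (u + 1) - 2) / 2 = u := by omega
    rw [e1, e2] at h1
    have h4 : 2 ^ (2 * u + 1) ≤ hammingNorm a.1 + 2 ^ u := by omega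
    have h5 : (2 : ℤ) ^ (2 * u + 1) ≤ (hammingNorm a.1 : ℤ) + 2 ^ u := by exact_mod_cast h4
    rw [h2]
    have e3 : (2 : ℤ) ^ (2 * (u + 1)) = 2 * 2 ^ (2 * u + 1) := by ring
    have e4 : (2 : ℤ) ^ (u + 1) = 2 * 2 ^ u := by ring
    rw [e3, e4]
    linarith
  · rw [Module.card_eq_pow_finrank (K := ZMod 2), ZMod.card, ← pow_mul]
    exact Nat.pow_le_pow_right (by norm_num) (by omega)

end Pool.Agent.H968Z.Kerdock
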